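import Mathlib

open CategoryTheory

namespace Pool.Agent.Results.MP_0548d2_gt.StableNotStrong

universe u v w

section Defs

variable {k : Type u} [Field k]

/-- A multi-flag: a set of subspaces containing `0` and the whole space, closed under
intersection. -/
def IsMultiFlag {V : Type w} [AddCommGroup V] [Module k V] (S : Set (Submodule k V)) : Prop :=
  ⊥ ∈ S ∧ ⊤ ∈ S ∧ ∀ A ∈ S, ∀ B ∈ S, A ⊓ B ∈ S

/-- The multi-flag generated by a set of subspaces. -/
def multiFlagGen {V : Type w} [AddCommGroup V] [Module k V] (T : Set (Submodule k V)) :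
    Set (Submodule k V) :=
  ⋂₀ {S | IsMultiFlag S ∧ T ⊆ S}

variable {C : Type v} [PartialOrder C]

/-- The structure map `M(x) → M(y)` for `x ≤ y`. -/
abbrev str (M : C ⥤ ModuleCat.{w} k) {x y : C} (h : x ≤ y) : M.obj x →ₗ[k] M.obj y :=
  (M.map (homOfLE h)).hom

/-- The kernels of all `M(x) → M(y)`, `x ≤ y`, and the images of all `M(z) → M(x)`, `z ≤ x`. -/
def kerIm (M : C ⥤ ModuleCat.{w} k) (x : C) : Set (Submodule k (M.obj x)) :=
  {W | ∃ (y : C) (h : x ≤ y), W = LinearMap.ker (str M h)} ∪
  {W | ∃ (z : C) (h : z ≤ x), W = LinearMap.range (str M h)}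

/-- One step of the recursion: from the sets `G y` of subspaces of `M(y)` form, at `x`, the
multi-flag generated by all preimages and all images of members of the `G y`. -/
def step (M : C ⥤ ModuleCat.{w} k) (G : ∀ x : C, Set (Submodule k (M.obj x))) (x : C) :
    Set (Submodule k (M.obj x)) :=
  multiFlagGen
    ({W | ∃ (y : C) (h : x ≤ y), ∃ W' ∈ G y, W = W'.comap (str M h)} ∪
     {W | ∃ (z : C) (h : z ≤ x), ∃ W' ∈ G z, W = W'.map (str M h)})

/-- `F_n(M)(x)`. -/
def locStr (M : C ⥤ ModuleCat.{w} k) : ℕ → ∀ x : C, Set (Submodule k (M.obj x))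
  | 0 => fun x => multiFlagGen (kerIm M x)
  | n + 1 => step M (locStr M n)

/-- `F^F_n(M)(x)`, the version relative to `F`. -/
def relLocStr (M : C ⥤ ModuleCat.{w} k) (F : ∀ x : C, Set (Submodule k (M.obj x))) :
    ℕ → ∀ x : C, Set (Submodule k (M.obj x))
  | 0 => fun x => multiFlagGen (multiFlagGen (kerIm M x) ∪ F x)
  | n + 1 => step M (relLocStr M F n)

/-- `M` has stable local structure. -/
def Stable (M : C ⥤ ModuleCat.{w} k) : Prop :=
  ∀ x : C, ∃ N : ℕ, ∀ n ≥ N, locStr M n x = locStr M (n + 1) x

/-- `M` has strongly stable local structure. -/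
def StronglyStable (M : C ⥤ ModuleCat.{w} k) : Prop :=
  ∀ F : ∀ x : C, Set (Submodule k (M.obj x)), (∀ x, IsMultiFlag (F x) ∧ (F x).Finite) →
    ∃ N : ℕ, ∀ x : C, (⋃ n, relLocStr M F n x) = relLocStr M F N x

end Defs

/-! ### Generated multi-flags -/

section Gen

variable {k : Type u} [Field k] {V : Type w} [AddCommGroup V] [Module k V]

lemma isMultiFlag_gen (T : Set (Submodule k V)) : IsMultiFlag (multiFlagGen T) := by
  refine ⟨?_, ?_, ?_⟩
  · rintro S ⟨hS, -⟩
    exact hS.1
  · rintro S ⟨hS, -⟩
    exact hS.2.1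
  · rintro A hA B hB S hS
    exact hS.1.2.2 A (hA S hS) B (hB S hS)

lemma subset_gen (T : Set (Submodule k V)) : T ⊆ multiFlagGen T := by
  rintro W hW S ⟨-, hS⟩
  exact hS hW

lemma gen_subset {T S : Set (Submodule k V)} (hS : IsMultiFlag S) (h : T ⊆ S) :
    multiFlagGen T ⊆ S := by
  intro W hW
  exact hW S ⟨hS, h⟩

lemma gen_mono {T S : Set (Submodule k V)} (h : T ⊆ S) : multiFlagGen T ⊆ multiFlagGen S :=
  gen_subset (isMultiFlag_gen S) (h.trans (subset_gen S))

/-- The multi-flag generated by a finite set is finite. -/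
lemma gen_finite {T : Set (Submodule k V)} (hT : T.Finite) : (multiFlagGen T).Finite := by
  classical
  -- all infima of finite subsets of `insert ⊥ T`
  set T' : Set (Submodule k V) := insert ⊥ T with hT'
  have hT'f : T'.Finite := hT.insert ⊥
  have hf : ((fun s : Set (Submodule k V) => sInf s) '' (𝒫 T')).Finite :=
    (hT'f.finite_subsets).image _
  refine hf.subset ?_
  apply gen_subset
  · refine ⟨⟨{⊥}, ?_, by simp⟩, ⟨∅, by simp, by simp⟩, ?_⟩
    · simp [hT']
    · rintro A ⟨s, hs, rfl⟩ B ⟨t, ht, rfl⟩
      refine ⟨s ∪ t, ?_, ?_⟩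
      · exact Set.union_subset hs ht
      · exact sInf_union
  · intro W hW
    refine ⟨{W}, ?_, by simp⟩
    simp only [Set.mem_powerset_iff, Set.singleton_subset_iff, hT']
    exact Set.mem_insert_of_mem _ hW

end Gen

section Basic

variable {k : Type u} [Field k] {C : Type v} [PartialOrder C]

lemma step_mono (M : C ⥤ ModuleCat.{w} k) {G G' : ∀ x : C, Set (Submodule k (M.obj x))}
    (h : ∀ x, G x ⊆ G' x) (x : C) : step M G x ⊆ step M G' x := by
  apply gen_mono
  apply Set.union_subset_union
  · rintro W ⟨y, hxy, W', hW', rfl⟩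
    exact ⟨y, hxy, W', h y hW', rfl⟩
  · rintro W ⟨y, hxy, W', hW', rfl⟩
    exact ⟨y, hxy, W', h y hW', rfl⟩

lemma str_refl (M : C ⥤ ModuleCat.{w} k) (x : C) : str M (le_refl x) = LinearMap.id := by
  have : homOfLE (le_refl x) = 𝟙 x := rfl
  rw [str, this, M.map_id]
  rfl

lemma subset_step (M : C ⥤ ModuleCat.{w} k) (G : ∀ x : C, Set (Submodule k (M.obj x))) (x : C) :
    G x ⊆ step M G x := by
  intro W hW
  apply subset_gen
  left
  exact ⟨x, le_refl x, W, hW, by rw [str_refl]; rfl⟩

lemma relLocStr_mono (M : C ⥤ ModuleCat.{w} k) (F : ∀ x : C, Set (Submodule k (M.obj x)))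
    (x : C) : Monotone (fun n => relLocStr M F n x) := by
  apply monotone_nat_of_le_succ
  intro n
  exact subset_step M _ x

lemma relLocStr_finite [Finite C] (M : C ⥤ ModuleCat.{w} k)
    (F : ∀ x : C, Set (Submodule k (M.obj x))) (hF : ∀ x, (F x).Finite) (n : ℕ) :
    ∀ x, (relLocStr M F n x).Finite := by
  induction n with
  | zero =>
    intro x
    apply gen_finite
    refine Set.Finite.union (gen_finite (Set.Finite.union ?_ ?_)) (hF x)
    · have : {W | ∃ (y : C) (h : x ≤ y), W = LinearMap.ker (str M h)} ⊆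
          ⋃ y : C, ⋃ h : x ≤ y, {LinearMap.ker (str M h)} := by
        rintro W ⟨y, h, rfl⟩
        simp only [Set.mem_iUnion]
        exact ⟨y, h, rfl⟩
      refine Set.Finite.subset ?_ this
      exact Set.finite_iUnion fun y => Set.finite_iUnion fun h => Set.finite_singleton _
    · have : {W | ∃ (z : C) (h : z ≤ x), W = LinearMap.range (str M h)} ⊆
          ⋃ z : C, ⋃ h : z ≤ x, {LinearMap.range (str M h)} := by
        rintro W ⟨y, h, rfl⟩
        simp only [Set.mem_iUnion]
        exact ⟨y, h, rfl⟩
      refine Set.Finite.subset ?_ this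
      exact Set.finite_iUnion fun y => Set.finite_iUnion fun h => Set.finite_singleton _
  | succ n ih =>
    intro x
    apply gen_finite
    refine Set.Finite.union ?_ ?_
    · have : {W | ∃ (y : C) (h : x ≤ y), ∃ W' ∈ relLocStr M F n y, W = W'.comap (str M h)} ⊆
          ⋃ y : C, ⋃ h : x ≤ y, (fun W' => W'.comap (str M h)) '' (relLocStr M F n y) := by
        rintro W ⟨y, h, W', hW', rfl⟩
        simp only [Set.mem_iUnion]
        exact ⟨y, h, W', hW', rfl⟩
      refine Set.Finite.subset ?_ this
      exact Set.finite_iUnion fun y => Set.finite_iUnion fun h => (ih y).image _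
    · have : {W | ∃ (z : C) (h : z ≤ x), ∃ W' ∈ relLocStr M F n z, W = W'.map (str M h)} ⊆
          ⋃ z : C, ⋃ h : z ≤ x, (fun W' => W'.map (str M h)) '' (relLocStr M F n z) := by
        rintro W ⟨y, h, W', hW', rfl⟩
        simp only [Set.mem_iUnion]
        exact ⟨y, h, W', hW', rfl⟩
      refine Set.Finite.subset ?_ this
      exact Set.finite_iUnion fun y => Set.finite_iUnion fun h => (ih y).image _

end Basic


/-! ### The holonomy module on the crown poset -/

section Crown

/-- Four elements: two minimal ones, `lo _`, below two maximal ones, `hi _`. -/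
inductive Crown : Type
  | lo (i : Bool) : Crown
  | hi (i : Bool) : Crown

instance : PartialOrder Crown where
  le p q := p = q ∨ ∃ i j, p = Crown.lo i ∧ q = Crown.hi j
  le_refl p := Or.inl rfl
  le_trans p q r hpq hqr := by
    rcases hpq with rfl | ⟨i, j, rfl, rfl⟩
    · exact hqr
    · rcases hqr with rfl | ⟨i', j', h, -⟩
      · exact Or.inr ⟨i, j, rfl, rfl⟩
      · cases h
  le_antisymm p q hpq hqp := by
    rcases hpq with rfl | ⟨i, j, rfl, rfl⟩
    · rfl
    · rcases hqp with h | ⟨i', j', h, -⟩
      · exact h.symm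
      · cases h

instance : Finite Crown :=
  Finite.of_surjective (fun x : Bool × Bool => if x.1 then Crown.hi x.2 else Crown.lo x.2) (by
    rintro (i | i)
    · exact ⟨(false, i), rfl⟩
    · exact ⟨(true, i), rfl⟩)

instance : Nonempty Crown := ⟨Crown.lo false⟩

lemma lo_le_hi (i j : Bool) : Crown.lo i ≤ Crown.hi j := Or.inr ⟨i, j, rfl, rfl⟩

lemma crown_zigzag (p q : Crown) : Zigzag p q := by
  have hab : ∀ i j : Bool, Zigzag (Crown.lo i) (Crown.hi j) := fun i j =>
    Zigzag.of_hom (homOfLE (lo_le_hi i j))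
  have hba : ∀ i j : Bool, Zigzag (Crown.hi i) (Crown.lo j) := fun i j =>
    Zigzag.of_inv (homOfLE (lo_le_hi j i))
  obtain p | p := p <;> obtain q | q := q
  · exact (hab p true).trans (hba true q)
  · exact hab p q
  · exact hba p q
  · exact (hba p true).trans (hab true q)

instance : IsConnected Crown := zigzag_isConnected crown_zigzag

variable {k : Type u} [Field k]

/-- The map `diag(1, t)`. -/
def diagMap (t : k) : (k × k) →ₗ[k] (k × k) := LinearMap.prodMap LinearMap.id (t • LinearMap.id)

lemma diagMap_apply (t : k) (v : k × k) : diagMap t v = (v.1, t * v.2) := by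
  simp [diagMap]

/-- The structure maps: all are the identity, except the one from `lo true` to `hi true`. -/
def hol (t : k) : Crown → Crown → ((k × k) →ₗ[k] (k × k))
  | Crown.lo true, Crown.hi true => diagMap t
  | _, _ => LinearMap.id

lemma hol_self (t : k) (p : Crown) : hol t p p = LinearMap.id := by
  obtain (_ | _) | (_ | _) := p <;> rfl

/-- The holonomy module. -/
def holM (t : k) : Crown ⥤ ModuleCat.{u} k where
  obj _ := ModuleCat.of k (k × k)
  map {p q} _ := ModuleCat.ofHom (hol t p q)
  map_id p := by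
    rw [hol_self]
    rfl
  map_comp {p q r} f g := by
    have hpq := leOfHom f
    have hqr := leOfHom g
    rcases hpq with rfl | ⟨i, j, rfl, rfl⟩
    · rw [hol_self]
      rfl
    · rcases hqr with rfl | ⟨i', j', h, -⟩
      · rw [hol_self]
        rfl
      · cases h

lemma str_holM (t : k) {p q : Crown} (h : p ≤ q) : str (holM t) h = hol t p q := rfl

lemma hol_eq (t : k) (p q : Crown) : hol t p q = diagMap t ∨ hol t p q = LinearMap.id := by
  obtain (_ | _) | (_ | _) := p <;> obtain (_ | _) | (_ | _) := q <;>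
    first
    | exact Or.inr rfl
    | exact Or.inl rfl

lemma hol_bijective {t : k} (ht : t ≠ 0) (p q : Crown) : Function.Bijective (hol t p q) := by
  rcases hol_eq t p q with h | h
  · rw [h]
    constructor
    · intro v w hvw
      rw [diagMap_apply, diagMap_apply, Prod.mk.injEq] at hvw
      exact Prod.ext hvw.1 (mul_left_cancel₀ ht hvw.2)
    · intro v
      refine ⟨(v.1, t⁻¹ * v.2), ?_⟩
      rw [diagMap_apply]
      ext
      · rfl
      · simp [ht]
  · rw [h]
    exact Function.bijective_id

lemma isMultiFlag_pair {V : Type w} [AddCommGroup V] [Module k V] :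
    IsMultiFlag ({⊥, ⊤} : Set (Submodule k V)) := by
  refine ⟨by simp, by simp, ?_⟩
  rintro A (rfl | rfl) B (rfl | rfl) <;> simp

lemma isMultiFlag_triple {V : Type w} [AddCommGroup V] [Module k V] (L : Submodule k V) :
    IsMultiFlag ({⊥, ⊤, L} : Set (Submodule k V)) := by
  refine ⟨by simp, by simp, ?_⟩
  rintro A (rfl | rfl | rfl) B (rfl | rfl | rfl) <;> simp

lemma finite_triple {α : Type w} (a b c : α) : ({a, b, c} : Set α).Finite := by
  simp

lemma locStr_holM {t : k} (ht : t ≠ 0) (n : ℕ) :
    ∀ x, locStr (holM t) n x = {⊥, ⊤} := by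
  have key : ∀ x : Crown, ∀ T : Set (Submodule k ((holM t).obj x)), T ⊆ {⊥, ⊤} →
      multiFlagGen T = {⊥, ⊤} := by
    intro x T hT
    apply Set.Subset.antisymm (gen_subset isMultiFlag_pair hT)
    rintro W (rfl | rfl)
    · exact (isMultiFlag_gen T).1
    · exact (isMultiFlag_gen T).2.1
  induction n with
  | zero =>
    intro x
    apply key
    rintro W (⟨y, h, rfl⟩ | ⟨z, h, rfl⟩)
    · left
      rw [LinearMap.ker_eq_bot, str_holM]
      exact (hol_bijective ht _ _).1
    · right
      rw [Set.mem_singleton_iff, LinearMap.range_eq_top, str_holM]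
      exact (hol_bijective ht _ _).2
  | succ n ih =>
    intro x
    apply key
    rintro W (⟨y, h, W', hW', rfl⟩ | ⟨z, h, W', hW', rfl⟩)
    · rw [ih y] at hW'
      rcases hW' with rfl | rfl
      · left
        rw [Submodule.comap_bot, LinearMap.ker_eq_bot, str_holM]
        exact (hol_bijective ht _ _).1
      · right
        rw [Set.mem_singleton_iff, Submodule.comap_top]
    · rw [ih z] at hW'
      rcases hW' with rfl | rfl
      · left
        rw [Submodule.map_bot]
      · right
        rw [Set.mem_singleton_iff, Submodule.map_top, LinearMap.range_eq_top, str_holM]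
        exact (hol_bijective ht _ _).2

lemma stable_holM {t : k} (ht : t ≠ 0) : Stable (holM t) := by
  intro x
  refine ⟨0, fun n _ => ?_⟩
  rw [locStr_holM ht, locStr_holM ht]

/-- The lines spanned by `(1, t ^ n)`. -/
def line (t : k) (n : ℕ) : Submodule k (k × k) := Submodule.span k {((1 : k), t ^ n)}

/-- The choice of multi-flags. -/
def flagF (t : k) (x : Crown) : Set (Submodule k ((holM t).obj x)) := {⊥, ⊤, line t 0}

lemma flagF_ok (t : k) (x : Crown) : IsMultiFlag (flagF t x) ∧ (flagF t x).Finite :=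
  ⟨isMultiFlag_triple _, finite_triple _ _ _⟩

lemma push_mem {C : Type v} [PartialOrder C] {M : C ⥤ ModuleCat.{w} k}
    {F : ∀ x : C, Set (Submodule k (M.obj x))} {n : ℕ} {z x : C} (h : z ≤ x)
    {W : Submodule k (M.obj z)} (hW : W ∈ relLocStr M F n z) :
    W.map (str M h) ∈ relLocStr M F (n + 1) x :=
  subset_gen _ (Or.inr ⟨z, h, W, hW, rfl⟩)

lemma pull_mem {C : Type v} [PartialOrder C] {M : C ⥤ ModuleCat.{w} k}
    {F : ∀ x : C, Set (Submodule k (M.obj x))} {n : ℕ} {x y : C} (h : x ≤ y)
    {W : Submodule k (M.obj y)} (hW : W ∈ relLocStr M F n y) :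
    W.comap (str M h) ∈ relLocStr M F (n + 1) x :=
  subset_gen _ (Or.inl ⟨y, h, W, hW, rfl⟩)

lemma line_mem (t : k) (n : ℕ) :
    (line t n : Submodule k ((holM t).obj (Crown.lo false))) ∈
    relLocStr (holM t) (flagF t) (4 * n) (Crown.lo false) := by
  induction n with
  | zero =>
    apply subset_gen
    right
    exact Or.inr (Or.inr rfl)
  | succ n ih =>
    have h1 := push_mem (lo_le_hi false false) ih
    have h2 := pull_mem (lo_le_hi true false) h1
    have h3 := push_mem (lo_le_hi true true) h2
    have h4 := pull_mem (lo_le_hi false true) h3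
    have e : Submodule.comap (LinearMap.id : (k × k) →ₗ[k] (k × k))
      (Submodule.map (diagMap t) (Submodule.comap (LinearMap.id : (k × k) →ₗ[k] (k × k))
        (Submodule.map (LinearMap.id : (k × k) →ₗ[k] (k × k)) (line t n)))) = line t (n + 1) := by
      rw [Submodule.map_id, Submodule.comap_id, Submodule.comap_id, line, line,
        Submodule.map_span, Set.image_singleton, diagMap_apply, pow_succ, mul_comm]
    have h5 : Submodule.comap (LinearMap.id : (k × k) →ₗ[k] (k × k))
      (Submodule.map (diagMap t) (Submodule.comap (LinearMap.id : (k × k) →ₗ[k] (k × k))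
        (Submodule.map (LinearMap.id : (k × k) →ₗ[k] (k × k)) (line t n)))) ∈
        relLocStr (holM t) (flagF t) (4 * (n + 1)) (Crown.lo false) := h4
    exact e ▸ h5

lemma line_injective {t : k} (ht0 : t ≠ 0) (ht : ∀ n : ℕ, 0 < n → t ^ n ≠ 1) :
    Function.Injective (line t) := by
  have key : ∀ n m : ℕ, n < m → line t n ≠ line t m := by
    intro n m hnm h
    have h1 : ((1 : k), t ^ n) ∈ line t m := by
      rw [← h]
      exact Submodule.mem_span_singleton_self _
    rw [line, Submodule.mem_span_singleton] at h1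
    obtain ⟨c, hc⟩ := h1
    simp only [Prod.smul_mk, smul_eq_mul, mul_one, Prod.mk.injEq] at hc
    obtain ⟨rfl, h2⟩ := hc
    rw [one_mul] at h2
    apply ht (m - n) (by omega)
    have h3 : t ^ (m - n) * t ^ n = 1 * t ^ n := by
      rw [← pow_add, one_mul, Nat.sub_add_cancel hnm.le, h2]
    exact mul_right_cancel₀ (pow_ne_zero n ht0) h3
  intro n m h
  rcases lt_trichotomy n m with h1 | h1 | h1
  · exact absurd h (key n m h1)
  · exact h1
  · exact absurd h.symm (key m n h1)

lemma not_stronglyStable_holM {t : k} (ht0 : t ≠ 0) (ht : ∀ n : ℕ, 0 < n → t ^ n ≠ 1) :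
    ¬ StronglyStable (holM t) := by
  intro hS
  obtain ⟨N, hN⟩ := hS (flagF t) (flagF_ok t)
  have hfin := relLocStr_finite (holM t) (flagF t) (fun x => (flagF_ok t x).2) N
    (Crown.lo false)
  rw [← hN (Crown.lo false)] at hfin
  have hsub : Set.range (line t) ⊆ ⋃ n, relLocStr (holM t) (flagF t) n (Crown.lo false) := by
    rintro W ⟨n, rfl⟩
    exact Set.mem_iUnion.2 ⟨4 * n, line_mem t n⟩
  exact (Set.infinite_range_of_injective (line_injective ht0 ht)) (hfin.subset hsub)

end Crown

/-! ### Fields all of whose nonzero elements are roots of unity -/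

section Torsion

variable {k : Type u} [Field k]

lemma exists_finite_subfield (h : ∀ t : k, t ≠ 0 → ∃ n : ℕ, 0 < n ∧ t ^ n = 1) (s : Set k)
    (hs : s.Finite) : ∃ K : Subfield k, Finite K ∧ s ⊆ K := by
  classical
  obtain ⟨p, hp⟩ := CharP.exists k
  have hp0 : p ≠ 0 := by
    rintro rfl
    have : CharZero k := CharP.charP_to_charZero k
    obtain ⟨n, hn, h2⟩ := h 2 two_ne_zero
    have h3 : (2 : ℕ) ^ n = 1 := by exact_mod_cast h2
    have h4 : 1 < 2 ^ n := Nat.one_lt_two_pow hn.ne'
    omega
  have : NeZero p := ⟨hp0⟩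
  have hprime : Fact p.Prime := ⟨(CharP.char_is_prime_or_zero k p).resolve_right hp0⟩
  let _ : Algebra (ZMod p) k := ZMod.algebra k p
  have hint : ∀ t : k, IsIntegral (ZMod p) t := by
    intro t
    by_cases ht : t = 0
    · rw [ht]
      exact isIntegral_zero
    · obtain ⟨n, hn, h1⟩ := h t ht
      refine IsIntegral.of_pow hn ?_
      rw [h1]
      exact isIntegral_one
  have hfd : FiniteDimensional (ZMod p) (IntermediateField.adjoin (ZMod p) s) := by
    have : Finite s := hs
    exact IntermediateField.finiteDimensional_adjoin fun t _ => hint t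
  have hfin : Finite (IntermediateField.adjoin (ZMod p) s) :=
    Module.finite_of_finite (ZMod p)
  refine ⟨(IntermediateField.adjoin (ZMod p) s).toSubfield, hfin, ?_⟩
  exact IntermediateField.subset_adjoin (ZMod p) s

variable {V : Type w} [AddCommGroup V] [Module k V] {V' : Type w} [AddCommGroup V'] [Module k V']

/-- Apply a `K`-linear functional `k → K` to all coordinates. -/
noncomputable def smear (K : Subfield k) {ι : Type} [Fintype ι] (b : Module.Basis ι k V)
    (l : k →ₗ[K] K) (v : V) : V :=
  ∑ j, ((l (b.repr v j) : K) : k) • b j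

lemma smear_add (K : Subfield k) {ι : Type} [Fintype ι] (b : Module.Basis ι k V)
    (l : k →ₗ[K] K) (v w : V) : smear K b l (v + w) = smear K b l v + smear K b l w := by
  unfold smear
  rw [← Finset.sum_add_distrib]
  refine Finset.sum_congr rfl fun j _ => ?_
  rw [map_add, Finsupp.add_apply, map_add, ← add_smul]
  rfl

lemma smear_zero (K : Subfield k) {ι : Type} [Fintype ι] (b : Module.Basis ι k V)
    (l : k →ₗ[K] K) : smear K b l 0 = 0 := by
  unfold smear
  simp

/-- Subspaces stable under all coordinatewise functionals. -/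
def Rat (K : Subfield k) {ι : Type} [Fintype ι] (b : Module.Basis ι k V)
    (W : Submodule k V) : Prop :=
  ∀ (l : k →ₗ[K] K), ∀ v ∈ W, smear K b l v ∈ W

lemma repr_smear (K : Subfield k) {ι : Type} [Fintype ι] (b : Module.Basis ι k V)
    (l : k →ₗ[K] K) (v : V) (j : ι) : b.repr (smear K b l v) j = ((l (b.repr v j) : K) : k) := by
  classical
  unfold smear
  rw [map_sum, Finsupp.finsetSum_apply]
  simp [Finsupp.single_apply]

lemma smear_map (K : Subfield k) {ι ι' : Type} [Fintype ι] [Fintype ι']
    (b : Module.Basis ι k V) (b' : Module.Basis ι' k V') (φ : V →ₗ[k] V')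
    (hφ : ∀ j i, b'.repr (φ (b j)) i ∈ K) (l : k →ₗ[K] K) (v : V) :
    smear K b' l (φ v) = φ (smear K b l v) := by
  classical
  apply b'.repr.injective
  ext i
  rw [repr_smear]
  have h1 : φ v = ∑ j, b.repr v j • φ (b j) := by
    conv_lhs => rw [← b.sum_repr v]
    rw [map_sum]
    simp
  have h2 : b'.repr (φ v) i = ∑ j, (⟨b'.repr (φ (b j)) i, hφ j i⟩ : K) • b.repr v j := by
    rw [h1, map_sum, Finsupp.finsetSum_apply]
    refine Finset.sum_congr rfl fun j _ => ?_
    rw [map_smul, Finsupp.smul_apply, smul_eq_mul, mul_comm]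
    rfl
  rw [h2, map_sum]
  unfold smear
  rw [map_sum, map_sum, Finsupp.finsetSum_apply]
  simp only [map_smul, Finsupp.smul_apply, smul_eq_mul]
  push_cast
  refine Finset.sum_congr rfl fun j _ => ?_
  rw [mul_comm]

lemma rat_bot (K : Subfield k) {ι : Type} [Fintype ι] (b : Module.Basis ι k V) :
    Rat K b ⊥ := by
  intro l v hv
  rw [Submodule.mem_bot] at hv ⊢
  rw [hv, smear_zero]

lemma rat_isMultiFlag (K : Subfield k) {ι : Type} [Fintype ι] (b : Module.Basis ι k V) :
    IsMultiFlag {W | Rat K b W} := by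
  refine ⟨rat_bot K b, fun l v _ => Submodule.mem_top, ?_⟩
  intro A hA B hB l v hv
  exact ⟨hA l v hv.1, hB l v hv.2⟩

lemma rat_comap (K : Subfield k) {ι ι' : Type} [Fintype ι] [Fintype ι']
    (b : Module.Basis ι k V) (b' : Module.Basis ι' k V') (φ : V →ₗ[k] V')
    (hφ : ∀ j i, b'.repr (φ (b j)) i ∈ K) {W : Submodule k V'} (hW : Rat K b' W) :
    Rat K b (W.comap φ) := by
  intro l v hv
  rw [Submodule.mem_comap] at hv ⊢
  rw [← smear_map K b b' φ hφ]
  exact hW l _ hv

lemma rat_map (K : Subfield k) {ι ι' : Type} [Fintype ι] [Fintype ι']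
    (b : Module.Basis ι k V) (b' : Module.Basis ι' k V') (φ : V →ₗ[k] V')
    (hφ : ∀ j i, b'.repr (φ (b j)) i ∈ K) {W : Submodule k V} (hW : Rat K b W) :
    Rat K b' (W.map φ) := by
  rintro l _ ⟨v, hv, rfl⟩
  rw [smear_map K b b' φ hφ]
  exact ⟨_, hW l v hv, rfl⟩

lemma rat_span (K : Subfield k) {ι : Type} [Fintype ι] (b : Module.Basis ι k V) (s : Set V)
    (hs : ∀ v ∈ s, ∀ j, b.repr v j ∈ K) : Rat K b (Submodule.span k s) := by
  intro l v hv
  have key : ∀ v ∈ Submodule.span k s, ∀ c : k, smear K b l (c • v) ∈ Submodule.span k s := by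
    intro v hv
    induction hv using Submodule.span_induction with
    | mem x hx =>
      intro c
      have : smear K b l (c • x) = ((l c : K) : k) • x := by
        apply b.repr.injective
        ext j
        rw [repr_smear, map_smul, map_smul, Finsupp.smul_apply, Finsupp.smul_apply, smul_eq_mul,
          smul_eq_mul]
        have h1 : c * b.repr x j = (⟨b.repr x j, hs x hx j⟩ : K) • c := by
          rw [mul_comm]
          rfl
        rw [h1, map_smul, smul_eq_mul, mul_comm]
        rfl
      rw [this]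
      exact Submodule.smul_mem _ _ (Submodule.subset_span hx)
    | zero =>
      intro c
      rw [smul_zero, smear_zero]
      exact Submodule.zero_mem _
    | add x y _ _ hx hy =>
      intro c
      rw [smul_add, smear_add]
      exact Submodule.add_mem _ (hx c) (hy c)
    | smul a x _ hx =>
      intro c
      rw [smul_smul]
      exact hx (c * a)
  have := key v hv 1
  rwa [one_smul] at this

/-- Rational subspaces are determined by their `K`-rational vectors. -/
lemma rat_le (K : Subfield k) {ι : Type} [Fintype ι] (b : Module.Basis ι k V)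
    {W W' : Submodule k V} (hW : Rat K b W)
    (h : ∀ v, (∀ j, b.repr v j ∈ K) → v ∈ W → v ∈ W') : W ≤ W' := by
  classical
  intro v hv
  let e := Module.Basis.ofVectorSpace K k
  let S := Finset.univ.sup fun j : ι => (e.repr (b.repr v j)).support
  have h1 : ∀ j, b.repr v j = ∑ i ∈ S, ((e.repr (b.repr v j) i : K) : k) * e i := by
    intro j
    conv_lhs => rw [← e.linearCombination_repr (b.repr v j)]
    rw [Finsupp.linearCombination_apply, Finsupp.sum]
    have hsub : (e.repr (b.repr v j)).support ⊆ S :=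
      Finset.le_sup (f := fun j : ι => (e.repr (b.repr v j)).support) (Finset.mem_univ j)
    rw [Finset.sum_subset hsub]
    · rfl
    · intro i _ hi
      rw [Finsupp.notMem_support_iff.1 hi, zero_smul]
  have h2 : v = ∑ i ∈ S, e i • smear K b (e.coord i) v := by
    apply b.repr.injective
    ext j
    rw [map_sum, Finsupp.finsetSum_apply, h1 j]
    refine Finset.sum_congr rfl fun i _ => ?_
    rw [map_smul, Finsupp.smul_apply, repr_smear, smul_eq_mul, mul_comm]
    rfl
  rw [h2]
  refine Submodule.sum_mem _ fun i _ => Submodule.smul_mem _ _ (h _ ?_ (hW _ _ hv))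
  intro j
  rw [repr_smear]
  exact SetLike.coe_mem _

lemma rat_finite (K : Subfield k) [Finite K] {ι : Type} [Fintype ι]
    (b : Module.Basis ι k V) : {W : Submodule k V | Rat K b W}.Finite := by
  classical
  have hinj : Set.InjOn (fun W : Submodule k V =>
      {c : ι → K | ∑ j, ((c j : K) : k) • b j ∈ W}) {W | Rat K b W} := by
    intro W hW W' hW' hWW'
    simp only at hWW'
    have key : ∀ v, (∀ j, b.repr v j ∈ K) → (v ∈ W ↔ v ∈ W') := by
      intro v hv
      have h1 : v = ∑ j, (((⟨b.repr v j, hv j⟩ : K) : K) : k) • b j := by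
        conv_lhs => rw [← b.sum_repr v]
      have h2 : (fun j => (⟨b.repr v j, hv j⟩ : K)) ∈
          {c : ι → K | ∑ j, ((c j : K) : k) • b j ∈ W} ↔ v ∈ W := by
        rw [Set.mem_ofPred_eq, ← h1]
      have h3 : (fun j => (⟨b.repr v j, hv j⟩ : K)) ∈
          {c : ι → K | ∑ j, ((c j : K) : k) • b j ∈ W'} ↔ v ∈ W' := by
        rw [Set.mem_ofPred_eq, ← h1]
      rw [← h2, ← h3, hWW']
    apply le_antisymm
    · exact rat_le K b hW fun v hv h => (key v hv).1 h
    · exact rat_le K b hW' fun v hv h => (key v hv).2 h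
  exact Set.Finite.of_finite_image (Set.toFinite _) hinj

lemma stronglyStable_of_torsion (h : ∀ t : k, t ≠ 0 → ∃ n : ℕ, 0 < n ∧ t ^ n = 1)
    {C : Type v} [PartialOrder C] [Finite C] (M : C ⥤ ModuleCat.{w} k)
    (hM : ∀ x, FiniteDimensional k (M.obj x)) : StronglyStable M := by
  classical
  intro F hF
  let b : ∀ x : C, Module.Basis (Fin (Module.finrank k (M.obj x))) k (M.obj x) :=
    fun x => Module.finBasis k (M.obj x)
  -- generators of the members of `F x`
  have hgen : ∀ (x : C) (W : Submodule k (M.obj x)), ∃ s : Set (M.obj x), s.Finite ∧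
      Submodule.span k s = W := by
    intro x W
    have : W.FG := IsNoetherian.noetherian W
    obtain ⟨s, hs⟩ := this
    exact ⟨s, s.finite_toSet, hs⟩
  choose g hgf hgs using hgen
  let S1 : Set k := ⋃ x : C, ⋃ y : C, ⋃ hxy : x ≤ y,
    Set.range fun q : Fin (Module.finrank k (M.obj x)) × Fin (Module.finrank k (M.obj y)) =>
      (b y).repr (str M hxy (b x q.1)) q.2
  let S2 : Set k := ⋃ x : C, ⋃ W ∈ F x, ⋃ v ∈ g x W,
    Set.range fun j : Fin (Module.finrank k (M.obj x)) => (b x).repr v j
  have hS1 : S1.Finite :=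
    Set.finite_iUnion fun x => Set.finite_iUnion fun y => Set.finite_iUnion fun hxy =>
      Set.finite_range _
  have hS2 : S2.Finite :=
    Set.finite_iUnion fun x => (hF x).2.biUnion fun W _ => (hgf x W).biUnion fun v _ =>
      Set.finite_range _
  obtain ⟨K, hK, hSK⟩ := exists_finite_subfield h (S1 ∪ S2) (hS1.union hS2)
  have hφ : ∀ (x y : C) (hxy : x ≤ y), ∀ j i, (b y).repr (str M hxy (b x j)) i ∈ K := by
    intro x y hxy j i
    apply hSK
    left
    simp only [S1, Set.mem_iUnion]
    exact ⟨x, y, hxy, (j, i), rfl⟩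
  have hrat : ∀ x, ∀ W ∈ F x, Rat K (b x) W := by
    intro x W hW
    rw [← hgs x W]
    apply rat_span
    intro v hv j
    apply hSK
    right
    simp only [S2, Set.mem_iUnion]
    exact ⟨x, W, hW, v, hv, j, rfl⟩
  have hall : ∀ n x, relLocStr M F n x ⊆ {W | Rat K (b x) W} := by
    intro n
    induction n with
    | zero =>
      intro x
      apply gen_subset (rat_isMultiFlag K (b x))
      apply Set.union_subset
      · apply gen_subset (rat_isMultiFlag K (b x))
        rintro W (⟨y, hxy, rfl⟩ | ⟨z, hzx, rfl⟩)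
        · rw [← Submodule.comap_bot]
          exact rat_comap K (b x) (b y) _ (hφ x y hxy) (rat_bot K (b y))
        · rw [← Submodule.map_top]
          exact rat_map K (b z) (b x) _ (hφ z x hzx) (rat_isMultiFlag K (b z)).2.1
      · exact hrat x
    | succ n ih =>
      intro x
      apply gen_subset (rat_isMultiFlag K (b x))
      rintro W (⟨y, hxy, W', hW', rfl⟩ | ⟨z, hzx, W', hW', rfl⟩)
      · exact rat_comap K (b x) (b y) _ (hφ x y hxy) (ih y hW')
      · exact rat_map K (b z) (b x) _ (hφ z x hzx) (ih z hW')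
  have hfin : ∀ x, (⋃ n, relLocStr M F n x).Finite := fun x =>
    (rat_finite K (b x)).subset (Set.iUnion_subset fun n => hall n x)
  have hstab : ∀ x, ∃ N, (⋃ n, relLocStr M F n x) ⊆ relLocStr M F N x := by
    intro x
    have hex : ∀ W : Submodule k (M.obj x), ∃ n, W ∈ (⋃ n, relLocStr M F n x) →
        W ∈ relLocStr M F n x := by
      intro W
      by_cases hW : W ∈ ⋃ n, relLocStr M F n x
      · obtain ⟨n, hn⟩ := Set.mem_iUnion.1 hW
        exact ⟨n, fun _ => hn⟩
      · exact ⟨0, fun h => absurd h hW⟩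
    choose m hm using hex
    refine ⟨(hfin x).toFinset.sup m, fun W hW => ?_⟩
    exact relLocStr_mono M F x (Finset.le_sup ((hfin x).mem_toFinset.2 hW)) (hm W hW)
  choose N hN using hstab
  cases nonempty_fintype C
  refine ⟨Finset.univ.sup N, fun x => ?_⟩
  apply Set.Subset.antisymm
  · exact (hN x).trans (relLocStr_mono M F x (Finset.le_sup (Finset.mem_univ x)))
  · exact Set.subset_iUnion (fun n => relLocStr M F n x) _

end Torsion

/-- For a field `k` the following are equivalent: there is a finite connected poset with a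
finite-dimensional module over `k` whose local structure is stable but not strongly stable; some
nonzero element of `k` is not a root of unity (equivalently `k` is not an algebraic extension of a
finite field). -/
theorem result (k : Type u) [Field k] :
    (∃ (C : Type) (_ : PartialOrder C) (_ : Finite C) (_ : IsConnected C)
      (M : C ⥤ ModuleCat.{u} k), (∀ x, FiniteDimensional k (M.obj x)) ∧
        Stable M ∧ ¬ StronglyStable M) ↔
      ∃ t : k, t ≠ 0 ∧ ∀ n : ℕ, 0 < n → t ^ n ≠ 1 := by
  constructor
  · rintro ⟨C, _, _, _, M, hM, -, hns⟩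
    by_contra hcon
    push Not at hcon
    exact hns (stronglyStable_of_torsion hcon M hM)
  · rintro ⟨t, ht0, ht⟩
    refine ⟨Crown, inferInstance, inferInstance, inferInstance, holM t, ?_, stable_holM ht0,
      not_stronglyStable_holM ht0 ht⟩
    intro x
    exact inferInstanceAs (FiniteDimensional k (k × k))

end Pool.Agent.Results.MP_0548d2_gt.StableNotStrong
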